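import Pool.Agent.Work.MP_77a596_an.Extract

set_option autoImplicit false

open Set Topology Bundle
open scoped Manifold ContDiff

namespace Pool.Agent.Results.MP_77a596_an.ExteriorBall

universe u v

/-- The model space `ℂ ^ n`. -/
abbrev Cn (n : ℕ) : Type := EuclideanSpace ℂ (Fin n)

/-- A complex manifold of dimension `dim`: Hausdorff, second countable, with a holomorphic atlas
modelled on `ℂ ^ dim`. -/
structure CplxMfd where
  carrier : Type u
  dim : ℕ
  [top : TopologicalSpace carrier]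
  [charts : ChartedSpace (Cn dim) carrier]
  [mfd : IsManifold 𝓘(ℂ, Cn dim) ω carrier]
  [haus : T2Space carrier]
  [sec : SecondCountableTopology carrier]

attribute [instance] CplxMfd.top CplxMfd.charts CplxMfd.mfd CplxMfd.haus CplxMfd.sec

/-- Holomorphic functions on a complex manifold. -/
def IsHolFun (X : CplxMfd.{u}) (f : X.carrier → ℂ) : Prop :=
  MDifferentiable 𝓘(ℂ, Cn X.dim) 𝓘(ℂ, ℂ) f

/-- Holomorphic maps of complex manifolds. -/
def IsHolMap (X : CplxMfd.{u}) (Y : CplxMfd.{v}) (f : X.carrier → Y.carrier) : Prop :=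
  MDifferentiable 𝓘(ℂ, Cn X.dim) 𝓘(ℂ, Cn Y.dim) f

/-- The hull of `K` with respect to the holomorphic functions on `X`. -/
def holHull (X : CplxMfd.{u}) (K : Set X.carrier) : Set X.carrier :=
  {x | ∀ f : X.carrier → ℂ, IsHolFun X f → ∀ C : ℝ, (∀ y ∈ K, ‖f y‖ ≤ C) → ‖f x‖ ≤ C}

/-- Holomorphic convexity: hulls of compact sets are compact. -/
def HolConvex (X : CplxMfd.{u}) : Prop :=
  ∀ K : Set X.carrier, IsCompact K → IsCompact (holHull X K)

/-- Stein manifolds: holomorphically convex, and holomorphic functions separate points. -/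
def IsStein (X : CplxMfd.{u}) : Prop :=
  HolConvex X ∧ ∀ x y : X.carrier, x ≠ y → ∃ f : X.carrier → ℂ, IsHolFun X f ∧ f x ≠ f y

/-- Local trivializations of `proj : E → X` with fibre `ℂ ^ k` over open subsets of `X`. -/
abbrev LocTriv (k : ℕ) (E : CplxMfd.{u}) (X : CplxMfd.{v}) (proj : E.carrier → X.carrier) :
    Type (max u v) :=
  Trivialization (Fin k → ℂ) proj

/-- The local trivialization `e` is holomorphic. -/
def LocTriv.IsHol {k : ℕ} {E : CplxMfd.{u}} {X : CplxMfd.{v}} {proj : E.carrier → X.carrier}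
    (e : LocTriv k E X proj) : Prop :=
  MDifferentiableOn 𝓘(ℂ, Cn E.dim) (𝓘(ℂ, Cn X.dim).prod 𝓘(ℂ, Fin k → ℂ)) e e.source

/-- The inverse of the local trivialization `e` is holomorphic. -/
def LocTriv.IsHolInv {k : ℕ} {E : CplxMfd.{u}} {X : CplxMfd.{v}} {proj : E.carrier → X.carrier}
    (e : LocTriv k E X proj) : Prop :=
  MDifferentiableOn (𝓘(ℂ, Cn X.dim).prod 𝓘(ℂ, Fin k → ℂ)) 𝓘(ℂ, Cn E.dim)
    e.toOpenPartialHomeomorph.symm e.target

/-- The transition map from `e'` to `e` acts on every fibre as an invertible affine map. -/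
def LocTriv.AffineTransition {k : ℕ} {E : CplxMfd.{u}} {X : CplxMfd.{v}}
    {proj : E.carrier → X.carrier} (e e' : LocTriv k E X proj) : Prop :=
  ∀ z ∈ e.baseSet ∩ e'.baseSet, ∃ φ : (Fin k → ℂ) ≃ᵃ[ℂ] (Fin k → ℂ), ∀ v : Fin k → ℂ,
    e (e'.toOpenPartialHomeomorph.symm (z, v)) = (z, φ v)

/-- The structure of a holomorphic affine bundle with fibre `ℂ ^ k` on the manifold `E` over `X`:
a holomorphic projection and an atlas of biholomorphic local trivializations whose transition maps
act on every fibre as invertible affine maps of `ℂ ^ k`. -/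
structure HolAffineBundle (k : ℕ) (E : CplxMfd.{u}) (X : CplxMfd.{v}) where
  proj : E.carrier → X.carrier
  proj_hol : IsHolMap E X proj
  atlas : Set (LocTriv k E X proj)
  cover : ∀ z : X.carrier, ∃ e ∈ atlas, z ∈ e.baseSet
  hol : ∀ e ∈ atlas, e.IsHol
  hol_inv : ∀ e ∈ atlas, e.IsHolInv
  affine : ∀ e ∈ atlas, ∀ e' ∈ atlas, e.AffineTransition e'

/-- Very good manifolds: some holomorphic affine bundle over `X` has Stein total space. -/
def VeryGood (X : CplxMfd.{v}) : Prop :=
  ∃ (k : ℕ) (E : CplxMfd.{u}), Nonempty (HolAffineBundle k E X) ∧ IsStein E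

/-- The open set `{z | 1 < ‖z‖}` of `ℂ ^ n`. -/
def extSet (n : ℕ) : TopologicalSpace.Opens (Cn n) :=
  ⟨{z | 1 < ‖z‖}, isOpen_lt continuous_const continuous_norm⟩

/-- The complement of the closed unit ball in `ℂ ^ n`, an open submanifold of `ℂ ^ n`. -/
noncomputable def exteriorBall (n : ℕ) : CplxMfd.{0} where
  carrier := extSet n
  dim := n

theorem noHull {m : ℕ} (k : ℕ) (E : CplxMfd.{u}) (b : HolAffineBundle k E (exteriorBall (m + 3))) :
    ¬ HolConvex E := by
  intro h
  refine Pool.Agent.Work.MP_77a596_an.no_hull (m := m) (k := k) (VE := Cn E.dim) (E := E.carrier)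
    (proj := b.proj) b.proj_hol.continuous b.atlas b.cover b.hol b.hol_inv ?_ h
  intro e he e' he' z hz
  obtain ⟨φ, hφ⟩ := b.affine e he e' he' z hz
  exact ⟨φ, fun v => congrArg Prod.snd (hφ v)⟩

/-- For `n ≥ 3`, no holomorphic affine bundle over the complement of the closed unit ball of `ℂ ^ n`
has holomorphically convex total space; in particular this manifold is not very good. -/
theorem result (n : ℕ) (hn : 3 ≤ n) :
    (∀ (k : ℕ) (E : CplxMfd.{u}), HolAffineBundle k E (exteriorBall n) → ¬ HolConvex E) ∧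
      ¬ VeryGood.{u} (exteriorBall n) := by
  obtain ⟨m, rfl⟩ := Nat.exists_eq_add_of_le' hn
  refine ⟨fun k E b => noHull k E b, ?_⟩
  rintro ⟨k, E, ⟨b⟩, hE, -⟩
  exact noHull k E b hE

end Pool.Agent.Results.MP_77a596_an.ExteriorBall
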